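import Pool.Agent.H529R3.Gap.Main

/-!
# Linear exponential space in linear exponential time, without polynomial space in `P` or `NP`

If polynomial space is contained in `P` (relative to `A`), then, by padding,
`ESPACE^A ⊆ E^A`. How often does the conclusion hold without the hypothesis? For every gauge `f`,
the set of the oracles `A` with `ESPACE^A ⊆ E^A` and `PSPACE^A ⊄ P^A`, the set of the oracles with
`ESPACE^A ⊆ E^A` and `PSPACE^A ⊄ NP^A`, and the set of the oracles with `ESPACE^A ⊆ E^A` and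
`PSPACE^A ⊄ PH^A/poly`, are null sets for `f` if and only if for every `ε > 0` there are infinitely
many `N` with `f N ≤ (log N) ^ ε`. (The oracles with `PSPACE^A ⊆ P^A`, or `⊆ NP^A`, are a null set
for much greater gauges.)
-/

set_option autoImplicit false

namespace Pool.Agent.Results.MP_c578c8_lc.GaugeEspaceGap

open Pool.Agent.NPC Pool.Agent.H620R2.Gauge Pool.Agent.H622R2.Exp

theorem result (f : ℕ → ℝ) :
    (∀ O : Set Oracle,
      (∀ A : Oracle, (∀ L, InSpace Lin A L → InTime Lin A L) →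
        (∃ L, IsPSPACE A L ∧ ¬ IsPHpoly A L) → A ∈ O) →
      (∀ A ∈ O, ∀ L, InNTime Lin A L → InTime Lin A L) →
      (Null f O ↔
        ∀ ε : ℝ, 0 < ε → ∃ᶠ N : ℕ in Filter.atTop, f N ≤ (Real.logb 2 N) ^ ε)) ∧
    (Null f {A : Oracle | (∀ L, InTime Lin A L ↔ InSpace Lin A L) ∧
        ∃ L, IsPSPACE A L ∧ ¬ IsP A L} ↔
      ∀ ε : ℝ, 0 < ε → ∃ᶠ N : ℕ in Filter.atTop, f N ≤ (Real.logb 2 N) ^ ε) ∧
    (Null f {A : Oracle | (∀ L, InTime Lin A L ↔ InSpace Lin A L) ∧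
        ∃ L, IsPSPACE A L ∧ ¬ IsNP A L} ↔
      ∀ ε : ℝ, 0 < ε → ∃ᶠ N : ℕ in Filter.atTop, f N ≤ (Real.logb 2 N) ^ ε) ∧
    (Null f {A : Oracle | (∀ L, InTime Lin A L ↔ InSpace Lin A L) ∧
        ∃ L, IsPSPACE A L ∧ ¬ IsPHpoly A L} ↔
      ∀ ε : ℝ, 0 < ε → ∃ᶠ N : ℕ in Filter.atTop, f N ≤ (Real.logb 2 N) ^ ε) := by
  have h2 : ∀ A : Oracle, (∀ L, InTime Lin A L ↔ InSpace Lin A L) →
      ∀ L, InNTime Lin A L → InTime Lin A L :=
    fun A hA L hL => (hA L).2 (hL.isSpace good_Lin)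
  refine ⟨fun O => H529R3.Gap.gap_below f O, H529R3.Gap.gap_below f _ ?_ fun A hA => h2 A hA.1,
    H529R3.Gap.gap_below f _ ?_ fun A hA => h2 A hA.1,
    H529R3.Gap.gap_below f _ ?_ fun A hA => h2 A hA.1⟩
  · rintro A hA ⟨L, hL, hL'⟩
    exact ⟨fun L => ⟨fun h => h.isNTime.isSpace good_Lin, hA L⟩, L, hL, fun h => hL' h.isPHpoly⟩
  · rintro A hA ⟨L, hL, hL'⟩
    exact ⟨fun L => ⟨fun h => h.isNTime.isSpace good_Lin, hA L⟩, L, hL, fun h => hL' h.isPH.isPHpoly⟩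
  · rintro A hA ⟨L, hL, hL'⟩
    exact ⟨fun L => ⟨fun h => h.isNTime.isSpace good_Lin, hA L⟩, L, hL, hL'⟩

end Pool.Agent.Results.MP_c578c8_lc.GaugeEspaceGap
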