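import Pool.Agent.H591R3.PHG.Cover
import Pool.Agent.H591R3.PHG.LangSig
import Pool.Agent.H620R2.Gauge.NonNull
import Pool.Agent.H620R2.GaugeX.NonNullX
import Pool.Agent.H620R2.Gauge2.Null

/-!
# How many oracles put polynomial space into `NP`, but not into `P`?

By padding, `DLINSPACE ⊆ P` is `PSPACE ⊆ P` and `DLINSPACE ⊆ NP` is `PSPACE ⊆ NP`. For every gauge
`f`, the set of the oracles `A` with `PSPACE^A ⊆ NP^A`, and the set of the oracles `A` with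
`PSPACE^A ⊆ NP^A` and `PSPACE^A ⊄ P^A`, are null sets for `f` if and only if for every `ε > 0` there
are infinitely many `N` with `f N ≤ 2 ^ ((log N) ^ ε)`. The same holds for every set of oracles
between the family of the `A` with `PSPACE^A, EXP^A ⊆ ZPP^A ≠ P^A` and the family of the `A` with
`PSPACE^A ⊆ Σ_k^A/poly` for some `k`.
-/

set_option autoImplicit false

namespace Pool.Agent.Results.MP_c578c8_lc.GaugeThreshold

open Pool.Agent.NPC Pool.Agent.H620R2.Gauge Pool.Agent.H591R3.PHG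

theorem result (f : ℕ → ℝ) :
    (∀ O : Set Oracle,
      (∀ A : Oracle, (∀ L, IsEXP A L ∨ IsPSPACE A L → IsZPP A L) →
        (∃ L, IsZPP A L ∧ ¬ IsP A L) → A ∈ O) →
      (∀ A ∈ O, ∃ k, ∀ L, IsPSPACE A L → IsSigPoly A k L) →
      (Null f O ↔
        ∀ ε : ℝ, 0 < ε → ∃ᶠ N : ℕ in Filter.atTop, f N ≤ 2 ^ (Real.logb 2 N) ^ ε)) ∧
    (Null f {A : Oracle | ∀ L, IsPSPACE A L → IsNP A L} ↔
      ∀ ε : ℝ, 0 < ε → ∃ᶠ N : ℕ in Filter.atTop, f N ≤ 2 ^ (Real.logb 2 N) ^ ε) ∧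
    (Null f {A : Oracle | (∀ L, IsPSPACE A L → IsNP A L) ∧ ¬ ∀ L, IsPSPACE A L → IsP A L} ↔
      ∀ ε : ℝ, 0 < ε → ∃ᶠ N : ℕ in Filter.atTop, f N ≤ 2 ^ (Real.logb 2 N) ^ ε) := by
  have key : ∀ O : Set Oracle,
      (∀ A : Oracle, (∀ L, IsEXP A L ∨ IsPSPACE A L → IsZPP A L) →
        (∃ L, IsZPP A L ∧ ¬ IsP A L) → A ∈ O) →
      (∀ A ∈ O, ∃ k, ∀ L, IsPSPACE A L → IsSigPoly A k L) →
      (Null f O ↔
        ∀ ε : ℝ, 0 < ε → ∃ᶠ N : ℕ in Filter.atTop, f N ≤ 2 ^ (Real.logb 2 N) ^ ε) := by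
    intro O h1 h2
    constructor
    · intro hn
      by_contra hcon
      exact not_nullT hcon O h1 hn
    · intro hf
      refine null_of_frequently2 f hf O fun A hA => ?_
      obtain ⟨k, hk⟩ := h2 A hA
      exact ⟨k, hk _ (lang_sig A k).isPH.isPSPACE⟩
  have h1 : ∀ (A : Oracle) (L : Set (List Bool)), IsNP A L ↔ IsSig A 1 L := fun A L => isNP_iff
  refine ⟨key, key _ ?_ ?_, key _ ?_ ?_⟩
  · intro A hA _ L hL
    exact (hA L (Or.inr hL)).isNP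
  · intro A hA
    exact ⟨1, fun L hL => ((h1 A L).1 (hA L hL)).isSigPoly⟩
  · intro A hA hZ
    refine ⟨fun L hL => (hA L (Or.inr hL)).isNP, fun hP => ?_⟩
    obtain ⟨L, hL, hL'⟩ := hZ
    exact hL' (hP L hL.isNP.isPSPACE)
  · intro A hA
    exact ⟨1, fun L hL => ((h1 A L).1 (hA.1 L hL)).isSigPoly⟩

end Pool.Agent.Results.MP_c578c8_lc.GaugeThreshold
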