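import Pool.Agent.H834Q.LinSp

set_option autoImplicit false

/-!
# Linear space and nondeterministic time relative to joins of oracles

Above every oracle `C` there are infinitely many oracles `A 0, A 1, A 2, ...`, each of which makes
`P` and `PSPACE` equal, such that relative to the join of any two of them some language is decided
with a memory of length `|x| + 2`, but not by any nondeterministic algorithm in time `2 ^ (n - 2)`.

Idea. `A i` codes its own `PSPACE` and a set `X i`; the language consists of the strings `x` for
which `X i` and `X j` have no common string of length `|x|`. With a memory of linear length one can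
try all strings. A computation with the join is a conversation between the two oracles, and
disjointness of two sets of `2 ^ n` possible elements, promised that they have at most one element
in common, needs rectangles in a number exponential in `2 ^ n` (Kaibel and Weltge).

Library: helper877 (joins of collapsing oracles).
-/

namespace Pool.Agent.Results.MP_c578c8_lc.LinearSpaceInJoins

open Pool.Agent.NPC Pool.Agent.H620R2.Gauge Pool.Agent.H877R3.Join Pool.Agent.H274R3.ETH

theorem result (C : Oracle) : ∃ A : ℕ → Oracle,
    (∀ i, Reduces {x | C x = true} {x | A i x = true} ∧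
      (∀ L, IsPSPACE (A i) L → Reduces L {x | A i x = true}) ∧
      (∀ L, IsP (A i) L ↔ IsPSPACE (A i) L)) ∧
    ∀ i j, i ≠ j → ∃ L : Set (List Bool), IsUP (join (A i) (A j)) Lᶜ ∧
      (∃ M : SAlg, ∀ x, (∀ s, M.Reach (join (A i) (A j)) x s → s.length ≤ x.length + 2) ∧
        ∃ s z, M.Reach (join (A i) (A j)) x s ∧ M.act (pairBits x s) = true :: z ∧
          (x ∈ L ↔ z = [true])) ∧
      ∀ (M : Alg) (N : ℕ), ∃ n : ℕ, N ≤ n ∧
        ¬ (List.replicate n true ∈ L ↔ ∃ g : List Bool, g.length ≤ 2 ^ (n - 2) ∧
          outT M (join (A i) (A j)) (pairBits g (List.replicate n true)) (2 ^ (n - 2)) =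
            some [true]) :=
  Pool.Agent.H834Q.EJ.mainLin C

end Pool.Agent.Results.MP_c578c8_lc.LinearSpaceInJoins
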